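import Mathlib

namespace Pool.Agent.Results.MP_1d13cc_al.NotAcyclic

/-- The principal two-sided ideal `H a H`. -/
def twoI {H : Type} [Monoid H] (a : H) : Set H := {y | ∃ h k, y = h * a * k}

/-- `x y ≠ x` and `y x ≠ x` whenever `y` is not a unit. -/
def UnitCancellative (H : Type) [Monoid H] : Prop :=
  ∀ x y : H, ¬ IsUnit y → x * y ≠ x ∧ y * x ≠ x

/-- There is no infinite strictly increasing sequence of principal two-sided ideals. -/
def ACCP (H : Type) [Monoid H] : Prop := ¬ ∃ a : ℕ → H, ∀ n, twoI (a n) ⊂ twoI (a (n + 1))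

inductive M
  | g (f l : ℕ)
  | w (n : ℕ) (D : ℤ) (f l : ℕ)

def mul : M → M → M
  | .g f l, .g f' l' => .g (f + f') (l + l')
  | .g f l, .w n D f' l' => .w n (D + l - f) (f + f') l'
  | .w n D f l, .g f' l' => .w n (D + l' - f') f (l + l')
  | .w n D f _, .w n' D' _ l' => .w (n + n' + 1) (D + D') f l'

instance : Monoid M where
  mul := mul
  one := .g 0 0
  mul_assoc a b c := by
    change mul (mul a b) c = mul a (mul b c)
    cases a <;> cases b <;> cases c <;> simp only [mul, M.g.injEq, M.w.injEq, true_and, and_true] <;>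
      omega
  one_mul a := by
    change mul (.g 0 0) a = a
    cases a <;> simp [mul]
  mul_one a := by
    change mul a (.g 0 0) = a
    cases a <;> simp [mul]

lemma mul_def (a b : M) : a * b = mul a b := rfl

def rk : M → ℕ ×ₗ ℕ
  | .g f l => toLex (0, f + l)
  | .w n _ f l => toLex (n + 1, f + l)

lemma sub {H : Type} [Monoid H] {a b : H} (h k : H) (e : a = h * b * k) : twoI a ⊆ twoI b := by
  rintro _ ⟨p, q, rfl⟩; exact ⟨p * h, k * q, by rw [e]; simp only [mul_assoc]⟩

lemma key (h b k : M) : twoI b ⊆ twoI (h * b * k) ∨ rk b < rk (h * b * k) := by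
  rcases h with ⟨f, l⟩ | ⟨n, D, f, l⟩ <;> rcases k with ⟨f2, l2⟩ | ⟨n2, D2, f2, l2⟩ <;>
    rcases b with ⟨f1, l1⟩ | ⟨n1, D1, f1, l1⟩
  · by_cases e : f + l + f2 + l2 = 0
    · left; refine sub 1 1 ?_
      simp only [one_mul, mul_one, mul_def, mul, M.g.injEq]; omega
    · right; simp only [mul_def, mul, rk, Prod.Lex.toLex_lt_toLex, true_and]; omega
  · by_cases e : f + l2 = 0
    · left; refine sub (.g 0 f2) (.g l 0) ?_
      simp only [mul_def, mul, M.w.injEq, true_and]; omega
    · right; simp only [mul_def, mul, rk, Prod.Lex.toLex_lt_toLex, true_and]; omega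
  all_goals (right; simp only [mul_def, mul, rk, Prod.Lex.toLex_lt_toLex]; omega)

theorem result : ∃ (H : Type) (_ : Monoid H), UnitCancellative H ∧ ACCP H ∧
    ∃ u v x : H, ¬ IsUnit u ∧ ¬ IsUnit v ∧ u * x * v = x := by
  have nu : ∀ y : M, IsUnit y → y = .g 0 0 := by
    intro y hy
    obtain ⟨z, hz⟩ := hy.exists_right_inv
    change mul y z = .g 0 0 at hz
    cases y <;> cases z <;> simp only [mul, M.g.injEq, reduceCtorEq] at hz ⊢
    omega
  refine ⟨M, inferInstance, fun x y hy => ?_, ?_, .g 0 1, .g 1 0, .w 0 0 0 0,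
    fun h => by simpa using nu _ h, fun h => by simpa using nu _ h, by simp [mul_def, mul]⟩
  · have : y ≠ .g 0 0 := by rintro rfl; exact hy isUnit_one
    cases x <;> cases y <;> simp only [mul_def, mul, ne_eq, M.g.injEq, M.w.injEq, reduceCtorEq,
      true_and, and_true, not_false_eq_true] at this ⊢ <;> omega
  · rintro ⟨a, ha⟩
    obtain ⟨_, ⟨N, rfl⟩, hN⟩ := (wellFounded_lt (α := ℕ ×ₗ ℕ)).has_min
      (Set.range fun n => rk (a n)) (Set.range_nonempty _)
    obtain ⟨h, k, e⟩ := (ha N).1 (show a N ∈ twoI (a N) from ⟨1, 1, by simp⟩)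
    rcases key h (a (N + 1)) k with h1 | h1
    · exact (ha N).2 (e ▸ h1)
    · exact hN _ ⟨N + 1, rfl⟩ (by rw [← e] at h1; exact h1)

end Pool.Agent.Results.MP_1d13cc_al.NotAcyclic
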